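import Pool.Agent.H24.CS.All

set_option autoImplicit false

open MeasureTheory ProbabilityTheory Filter Topology

namespace Pool.Agent.Results.MP_34b97f_an.ComponentSpectrum

open Pool.Agent.H89.MT (I1 X IsMult QuasiGeneric)

/-- The shift on `X = [-1,1]^ℤ`. -/
def S (x : X) : X := fun t => x (t + 1)

/-- `κ_x`: the conditional measures of `κ` given the invariant sets, that is, the ergodic
components of `κ`. -/
noncomputable def comp (κ : Measure X) [IsProbabilityMeasure κ] (x : X) : Measure X :=
  condExpKernel κ (MeasurableSpace.invariants S) x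

/-- The spectral measure of the coordinate `y 0` in `(X, ν, S)` (the measure on the circle with the
Fourier coefficients `∫ y 0 * y h dν`) is the sum of a discrete measure and of `w` times Lebesgue
measure: there are `b j ≥ 0` and `θ j` with `∫ y 0 * y h dν = ∑ b j * cos (2 π θ j h)` for all
`h ≥ 1`, and `∫ (y 0)² dν = ∑ b j + w`. -/
def Spec (ν : Measure X) (w : ℝ) : Prop := ∃ b θ : ℕ → ℝ, (∀ j, 0 ≤ b j) ∧ Summable b ∧
  ∫ y, (y 0 : ℝ) ^ 2 ∂ν = (∑' j, b j) + w ∧
  ∀ h : ℕ, 1 ≤ h → ∫ y, (y 0 : ℝ) * (y (h : ℤ) : ℝ) ∂ν =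
    ∑' j, b j * Real.cos (2 * Real.pi * θ j * h)

/-- **The spectrum of the ergodic components of the Furstenberg systems of real multiplicative
functions.** For every multiplicative `u` with values in `[-1,1]`, every Furstenberg system `κ` of
`u` and almost every ergodic component `κ_x` the spectral measure of the zeroth coordinate is the
sum of a discrete measure and of a constant `w x` times Lebesgue measure. If `u` pretends to be
`λ χ` (`|u(p) + χ(p)| ≤ ρ(p)` for all primes, where `∑ ρ(p) / p < ∞` and `χ` is a Dirichlet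
character modulo `q`), the mean of `w` over the components is at least `c > 0`, which depends on `q`
and `ρ` only. -/
theorem result (q : ℕ) [NeZero q] (ρ : ℕ → ℝ)
    (hρ : Summable fun p : Nat.Primes => ρ p / ((p : ℕ) : ℝ)) : ∃ c : ℝ, 0 < c ∧
    ∀ u : ℕ → I1, IsMult u → ∀ (κ : Measure X) [IsProbabilityMeasure κ], QuasiGeneric u κ →
      ∃ w : X → ℝ, Measurable w ∧ (∀ x, 0 ≤ w x ∧ w x ≤ 1) ∧
        (∀ᵐ x ∂κ, Spec (comp κ x) (w x)) ∧
        ((∃ χ : DirichletCharacter ℂ q, ∀ p : ℕ, p.Prime → ‖((u p : ℝ) : ℂ) + χ p‖ ≤ ρ p) →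
          c ≤ ∫ x, w x ∂κ) :=
  Pool.Agent.H24.CS.main q ρ hρ

end Pool.Agent.Results.MP_34b97f_an.ComponentSpectrum
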