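import Pool.Agent.H24.EG.Fin
import Pool.Agent.H6.TP.Fin2

set_option autoImplicit false

open MeasureTheory ProbabilityTheory Filter Topology

namespace Pool.Agent.Results.MP_34b97f_an.EigenfunctionGap

open Pool.Agent.H89.MT (I1 X QuasiGeneric)

/-- The shift on `X = [-1,1]^ℤ`. -/
def S (x : X) : X := fun t => x (t + 1)

/-- `κ_x`: the conditional measures of `κ` given the invariant sets, that is, the ergodic
components of `κ`. -/
noncomputable def comp (κ : Measure X) [IsProbabilityMeasure κ] (x : X) : Measure X :=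
  condExpKernel κ (MeasurableSpace.invariants S) x

/-- Furstenberg systems of the Liouville function: on almost every ergodic component the
correlation of the coordinate `y 0` with every eigenfunction bounded by `1`, for every real
eigenvalue, is at most `G`, and the mean of `G` over the components is less than `2 / π` by an
absolute constant. -/
theorem result : ∃ c : ℝ, 0 < c ∧ ∀ u : ℕ → I1,
    (∀ n, 0 < n → (u n : ℝ) = (-1) ^ ArithmeticFunction.cardFactors n) →
    ∀ (κ : Measure X) [IsProbabilityMeasure κ], QuasiGeneric u κ →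
    ∃ G : X → ℝ, Measurable G ∧ (∀ x, 0 ≤ G x ∧ G x ≤ 1) ∧ ∫ x, G x ∂κ ≤ 2 / Real.pi - c ∧
      ∀ᵐ x ∂κ, ∀ (θ : ℝ) (F : X → ℂ), Measurable F → (∀ y, ‖F y‖ ≤ 1) →
        (∀ᵐ y ∂comp κ x, F (S y) = Complex.exp (2 * Real.pi * θ * Complex.I) * F y) →
        ‖∫ y, ((y 0 : ℝ) : ℂ) * F y ∂comp κ x‖ ≤ G x := by
  obtain ⟨c, hc, h⟩ := Pool.Agent.H24.EG.main Pool.Agent.H6.TP.Fin2.fin2
  refine ⟨c, hc, fun u hu κ _ hκ => ?_⟩
  obtain ⟨G, hG, hG1, hG2, hG3⟩ := h u hu κ hκ
  refine ⟨G, hG, hG1, hG2, ?_⟩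
  filter_upwards [hG3] with x hx θ F hF hb hE
  refine hx θ F hF hb ?_
  filter_upwards [hE] with y hy
  rw [show Pool.Agent.H83.W.S y = S y from rfl, hy]
  unfold Pool.Agent.H6.N4D.ee
  push_cast
  rfl

end Pool.Agent.Results.MP_34b97f_an.EigenfunctionGap
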