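import Pool.Agent.H56.SS.FIN2

set_option autoImplicit false

open MeasureTheory ProbabilityTheory Filter Topology

namespace Pool.Agent.Results.MP_34b97f_an.PredictablePart

open Pool.Agent.H89.MT (I1 X pt z1 o1 m1 IsMult lavg)
open Pool.Agent.H92.RR (Pred)

/-- the extension of `u` to the integers, `0` at the `k ≤ 0` -/
def ext (u : ℕ → I1) (k : ℤ) : I1 := if 0 < k then u k.toNat else z1

/-- `b (n) = φ (u (n - m), u (n - m - 1), ..., u (n - m - H + 1))` -/
def bb (u : ℕ → I1) (m H : ℕ) (φ : (Fin H → I1) → ℝ) (n : ℤ) : ℝ :=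
  φ fun j => ext u (n - m - (j : ℕ))

/-- the product in `[-1,1]` -/
def mul (a b : I1) : I1 := ⟨(a : ℝ) * b, by
  have ha := abs_le.2 a.2
  have hb := abs_le.2 b.2
  have h : |(a : ℝ) * b| ≤ 1 := by
    rw [abs_mul]
    exact mul_le_one₀ ha (abs_nonneg _) hb
  exact abs_le.1 h⟩

/-- the sign, as an element of `[-1,1]`; `1` at `0` -/
noncomputable def sgn (t : ℝ) : I1 := if t < 0 then m1 else o1

/-- **The predictable part of a real multiplicative function is multiplicative, and carries all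
correlations.** Let `u` be a multiplicative function with values in `[-1,1]` and let `κ` be
logarithmically quasi-generic for `u`, along the sequence `N k`. There is a constant `c ≥ 0`, which
is `0` if and only if `κ` has the structure which is predicted by Q1 (`Pred u κ`), such that for
all `ε > 0` and `m ≥ 1` there is a function `b (n) = φ (u (n - m), ..., u (n - m - H + 1))` of the
values of `u` at distance at least `m` in the past, with `φ` continuous and bounded by `1`, with
the following properties.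

1. `b` is multiplicative at almost all primes: `b (p n)` is near `u p * b n` in mean square. There
is one constant `C` for all the finite sets `F` of primes.
2. `b` has the correlations of `u`, for every finite set `A` of shifts.
3. `u - b` is nearly orthogonal to every continuous function of finitely many values of `u` in the
past.
4. The means of `u * b` and of `b ^ 2` are near `c`.
5. `b (n)` is near `s * φ (s * u (n - p * m), ..., s * u (n - p * (m + H - 1)))`, `s` the sign of
`u p`, for all primes `p` outside a set with a finite sum of reciprocals: the same function gives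
the prediction from the past along every progression of difference `p`. -/
theorem result (u : ℕ → I1) (hu : IsMult u) (κ : Measure X) [IsProbabilityMeasure κ]
    (N : ℕ → ℕ) (hN : Tendsto N atTop atTop)
    (hκ : ∀ F : C(X, ℝ), Tendsto (fun k => lavg (N k) fun n => F (pt u n)) atTop
      (𝓝 (∫ x, F x ∂κ))) :
    ∃ c : ℝ, 0 ≤ c ∧ (Pred u κ ↔ c = 0) ∧ ∀ (ε : ℝ) (m : ℕ), 0 < ε → 0 < m →
      ∃ (H : ℕ) (φ : (Fin H → I1) → ℝ), Continuous φ ∧ (∀ y, |φ y| ≤ 1) ∧
        (∃ C : ℝ, ∀ F : Finset ℕ, (∀ p ∈ F, p.Prime) → ∀ᶠ k in atTop,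
          ∑ p ∈ F, (1 / (p : ℝ)) * lavg (N k) (fun n =>
            (bb u m H φ (p * n) - (u p : ℝ) * bb u m H φ n) ^ 2) ≤
          C + ε * ∑ p ∈ F, 1 / (p : ℝ)) ∧
        (∀ A : Finset ℤ, ∀ᶠ k in atTop,
          |lavg (N k) (fun n => ∏ h ∈ A, (ext u (n + h) : ℝ)) -
            lavg (N k) (fun n => ∏ h ∈ A, bb u m H φ (n + h))| ≤ ε * A.card) ∧
        (∀ (L : ℕ) (ψ : (Fin L → I1) → ℝ), Continuous ψ → (∀ y, |ψ y| ≤ 1) → ∀ᶠ k in atTop,
          |lavg (N k) (fun n => ((u n : ℝ) - bb u m H φ n) *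
            ψ fun j => ext u (n - 1 - (j : ℕ)))| ≤ ε) ∧
        (∀ᶠ k in atTop, |lavg (N k) (fun n => (u n : ℝ) * bb u m H φ n) - c| ≤ ε ∧
          |lavg (N k) (fun n => bb u m H φ n ^ 2) - c| ≤ ε) ∧
        ∃ E : Set ℕ, Summable (E.indicator fun n : ℕ => (1 : ℝ) / n) ∧
          ∀ p : ℕ, p.Prime → p ∉ E → ∀ᶠ k in atTop, lavg (N k) (fun n => (bb u m H φ n -
            (sgn (u p) : ℝ) * φ fun j => mul (sgn (u p)) (ext u (n - p * (m + (j : ℕ))))) ^ 2) ≤
              ε := by
  obtain ⟨c, hc, hP, h⟩ := Pool.Agent.H56.SS.pf_FIN2 u hu κ N hN hκ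
  refine ⟨c, ?_, hP, fun ε m hε hm => ?_⟩
  · rw [hc]
    exact integral_nonneg fun x => sq_nonneg _
  obtain ⟨H, φ, hφ, hb, h1, h2, ⟨E, hE, h3⟩, ⟨C, h4⟩, h5⟩ := h ε m hε hm
  have e0 : ∀ (n : ℕ) (k : ℤ), pt u n k = ext u (n + k) := fun _ _ => rfl
  have e1 : ∀ n : ℕ, Pool.Agent.H56.SS.loc m H φ (pt u n) = bb u m H φ n := by
    intro n
    unfold Pool.Agent.H56.SS.loc bb
    congr 1
    funext j
    rw [e0]
    congr 1
    ring
  have e2 : ∀ (n : ℕ) (h : ℤ), Pool.Agent.H56.SS.loc m H φ (Pool.Agent.H96.RP.tau h (pt u n)) =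
      bb u m H φ (n + h) := by
    intro n h
    unfold Pool.Agent.H56.SS.loc bb Pool.Agent.H96.RP.tau
    congr 1
    funext j
    rw [e0]
    congr 1
    ring
  have e3 : ∀ (n L : ℕ) (ψ : (Fin L → I1) → ℝ), Pool.Agent.H56.SS.loc 1 L ψ (pt u n) =
      ψ fun j => ext u (n - 1 - (j : ℕ)) := by
    intro n L ψ
    unfold Pool.Agent.H56.SS.loc
    congr 1
    funext j
    rw [e0]
    congr 1
    push_cast
    ring
  have e4 : ∀ (n p : ℕ), Pool.Agent.H56.SS.loc m H φ
      (Pool.Agent.H36.RP.dil (Pool.Agent.H56.SS.sgn (u p)) p (pt u n)) =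
      φ fun j => mul (sgn (u p)) (ext u (n - p * (m + (j : ℕ)))) := by
    intro n p
    unfold Pool.Agent.H56.SS.loc Pool.Agent.H36.RP.dil
    congr 1
    funext j
    rw [e0]
    have e5 : (n : ℤ) + p * -((m : ℤ) + ((j : ℕ) : ℤ)) = n - p * (m + ((j : ℕ) : ℤ)) := by ring
    rw [e5]
    rfl
  refine ⟨H, φ, hφ, hb, ⟨C, fun F hF => ?_⟩, fun A => ?_, fun L ψ hψ hψb => ?_, ?_, E, hE,
    fun p hp hpE => ?_⟩
  · refine (h4 F hF).mono fun k hk => ?_
    simp only [e1] at hk
    push_cast at hk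
    exact hk
  · refine (h5 A).mono fun k hk => ?_
    simp only [e0, e2] at hk
    exact hk
  · refine (h2 L ψ hψ hψb).mono fun k hk => ?_
    simp only [e1, e3] at hk
    exact hk
  · refine h1.mono fun k hk => ?_
    simp only [e1] at hk
    exact hk
  · refine (h3 p hp hpE).mono fun k hk => ?_
    simp only [e1, e4] at hk
    exact hk

end Pool.Agent.Results.MP_34b97f_an.PredictablePart
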