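import Pool.Agent.H47.RPR.Fin3

set_option autoImplicit false

open MeasureTheory ProbabilityTheory

namespace Pool.Agent.Results.MP_34b97f_an.RemotePast

open Pool.Agent.H89.MT (I1 X IsMult QuasiGeneric)
open Pool.Agent.H92.RR (Pred)

/-- The sigma algebra generated by the coordinates `x k` with `k ≤ q`. -/
def past (q : ℤ) : MeasurableSpace X :=
  ⨆ k : ℤ, ⨆ _ : k ≤ q, MeasurableSpace.comap (fun x : X => x k) inferInstance

/-- The remote past: the intersection of the sigma algebras `past q`, `q ∈ ℤ`. -/
def remote : MeasurableSpace X := ⨅ q : ℤ, past q

theorem remote_le : remote ≤ (inferInstance : MeasurableSpace X) :=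
  (iInf_le _ 0).trans (iSup_le fun k => iSup_le fun _ => (measurable_pi_apply k).comap_le)

/-- The sigma algebra generated by the conditional expectations, given the remote past, of the
coordinates `x k` and of their absolute values, `k ≤ q`. -/
noncomputable def laws (κ : Measure X) (q : ℤ) : MeasurableSpace X :=
  ⨆ k : ℤ, ⨆ _ : k ≤ q, (MeasurableSpace.comap (κ[fun x => (x k : ℝ) | remote]) inferInstance ⊔
    MeasurableSpace.comap (κ[fun x => |(x k : ℝ)| | remote]) inferInstance)

/-- **Structure of the Furstenberg systems of the real multiplicative functions.** Let `u` be a
multiplicative function with values in `[-1,1]` and let `κ` be a logarithmically quasi-generic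
measure of `u`. The absolute values of the coordinates are functions of the remote past; given the
remote past the coordinates are independent; so they are the product of `|x n|` and of independent
signs with biases. The remote past is generated (up to null sets) by the biases and the absolute
values of any past: they form a deterministic process. The measure `κ` has the structure which is
predicted by Q1 (independent fair signs times an odometer) if and only if the conditional
expectation of the coordinates given the remote past is `0`. -/
theorem result (u : ℕ → I1) (hu : IsMult u) (κ : Measure X) [IsProbabilityMeasure κ]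
    (hκ : QuasiGeneric u κ) :
    (∀ n : ℤ, κ[fun x => |(x n : ℝ)| | remote] =ᵐ[κ] fun x => |(x n : ℝ)|) ∧
      iCondIndepFun remote remote_le (fun (n : ℤ) (x : X) => x n) κ ∧
      (∀ (q : ℤ) (A : Set X), MeasurableSet[remote] A →
        ∃ B : Set X, MeasurableSet[laws κ q] B ∧ A =ᵐ[κ] B) ∧
      (Pred u κ ↔ κ[fun x => (x 0 : ℝ) | remote] =ᵐ[κ] 0) :=
  Pool.Agent.H47.RPR.final' u hu κ hκ

end Pool.Agent.Results.MP_34b97f_an.RemotePast
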